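import Mathlib
import Pool.Agent.H44.EHN.Stmts

/-! EHN row W1 (board `ehn` of helper44, MP_48f148_nt): symmetric Wilson. -/

set_option autoImplicit false

namespace EHN

theorem w1_aux (p : ℕ) [hp : Fact p.Prime] :
    ∀ k j : ℕ, k + j + 1 = p →
      ((k.factorial : ZMod p)) * (j.factorial : ZMod p) = (-1) ^ (k + 1) := by
  intro k
  induction k with
  | zero =>
    intro j hj
    have h1 : j = p - 1 := by omega
    subst h1
    have h2 := ZMod.wilsons_lemma (p := p)
    rw [h2]
    simp
  | succ k ih =>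
    intro j hj
    have h1 := ih (j + 1) (by omega)
    rw [Nat.factorial_succ, Nat.cast_mul] at h1
    rw [Nat.factorial_succ, Nat.cast_mul]
    have h2 : ((k + 1 : ℕ) : ZMod p) = -((j + 1 : ℕ) : ZMod p) := by
      have h3 : ((k + 1 : ℕ) : ZMod p) + ((j + 1 : ℕ) : ZMod p) = 0 := by
        rw [← Nat.cast_add]
        have h4 : k + 1 + (j + 1) = p := by omega
        rw [h4]
        exact ZMod.natCast_self p
      exact eq_neg_of_add_eq_zero_left h3
    rw [h2, pow_succ, ← h1]
    ring

theorem w1_thm : W1Stmt := by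
  intro n m p hp hnm hn hd
  haveI : Fact p.Prime := ⟨hp⟩
  have h1 := w1_aux p n m hnm
  have h2 : ((n.factorial + 1 : ℕ) : ZMod p) = 0 := (ZMod.natCast_eq_zero_iff _ _).2 hd
  have h3 : (n.factorial : ZMod p) = -1 := by
    push_cast at h2
    exact eq_neg_of_add_eq_zero_left h2
  have h4 : ((-1 : ZMod p)) ^ (n + 1) = 1 := (Odd.add_one hn).neg_one_pow
  rw [h3, h4] at h1
  rw [← ZMod.natCast_eq_zero_iff]
  push_cast
  have h5 : (m.factorial : ZMod p) = -1 := by
    have : -(m.factorial : ZMod p) = 1 := by rw [← h1]; ring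
    rw [← this]; ring
  rw [h5]
  ring

end EHN
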